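import Pool.Agent.Lib.helper10.Clo

namespace Pool.Agent.Results.MP_dd7d0c_lc.InP

open Pool.Agent.Cx

/-- `(S, mul, one)` is a semilattice with identity and `act` is an action of it on `C` -/
def IsAction {S C : Type} (mul : S → S → S) (one : S) (act : C → S → C) : Prop :=
  (∀ s, mul s s = s) ∧ (∀ s t, mul s t = mul t s) ∧ (∀ s t u, mul (mul s t) u = mul s (mul t u)) ∧
    (∀ s, mul one s = s) ∧ (∀ c s t, act c (mul s t) = act (act c s) t) ∧ ∀ c, act c one = c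

/-- `(P, le)` is isomorphic to the order induced by an action of a semilattice with identity -/
def DownPoset {P : Type} (le : P → P → Prop) : Prop :=
  ∃ (S C : Type) (mul : S → S → S) (one : S) (act : C → S → C) (e : P ≃ C),
    IsAction mul one act ∧ ∀ a b, le a b ↔ ∃ s, act (e b) s = e a

/-- the relation on `{0, ..., n-1}` with matrix `M` -/
def relOf (M : List (List Bool)) (a b : Fin M.length) : Prop := Entry M a b

/-- `M` is the square matrix of a partial order -/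
def IsPoset (M : List (List Bool)) : Prop :=
  (∀ r ∈ M, r.length = M.length) ∧ (∀ a, relOf M a a) ∧
    (∀ a b, relOf M a b → relOf M b a → a = b) ∧ ∀ a b c, relOf M a b → relOf M b c → relOf M a c

def Rec (M : List (List Bool)) : Prop := IsPoset M ∧ DownPoset (relOf M)

section
variable {V : Type} [PartialOrder V]

def Good (D : Set V) : Prop :=
  (∀ x ∈ D, ∀ y ≤ x, y ∈ D) ∧ ∀ x, ∃ m ∈ D, m ≤ x ∧ ∀ y ∈ D, y ≤ x → y ≤ m

lemma Good.inter {D E : Set V} (h : Good D) (g : Good E) : Good (D ∩ E) :=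
  ⟨fun x hx y e => ⟨h.1 x hx.1 y e, g.1 x hx.2 y e⟩, fun x =>
    let ⟨m, a, b, c⟩ := h.2 x
    let ⟨m', a', b', c'⟩ := g.2 m
    ⟨m', ⟨h.1 m a m' b', a'⟩, b'.trans b, fun y hy e => c' y hy.2 (c y hy.1 e)⟩⟩

lemma down_iff : DownPoset (fun a b : V => a ≤ b) ↔
    ∀ c d : V, c ≤ d → ∃ D, Good D ∧ c ∈ D ∧ ∀ y ∈ D, y ≤ d → y ≤ c := by
  constructor
  · rintro ⟨S, C, mul, one, act, e, ⟨a1, a2, -, -, a5, -⟩, h⟩ c d l
    obtain ⟨s, hs⟩ := (h c d).1 l
    have k : ∀ z, act (act z s) s = act z s := fun z => by rw [← a5, a1]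
    have k2 : ∀ x y, act (e y) s = e y → y ≤ x → ∃ t, act (act (e x) s) t = e y := fun x y b c => by
      obtain ⟨t, ht⟩ := (h y x).1 c
      exact ⟨t, by rw [← a5, a2, a5, ht, b]⟩
    refine ⟨{x | act (e x) s = e x}, ⟨fun x hx y l => ?_, fun x => ⟨e.symm (act (e x) s), by simp [k],
      (h _ _).2 ⟨s, by simp⟩, fun y hy l => (h _ _).2 (by simpa using k2 x y hy l)⟩⟩,
      by simp [← hs, k], fun y hy l => (h _ _).2 (hs ▸ k2 d y hy l)⟩
    obtain ⟨t, ht⟩ := (h y x).1 l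
    change act (e x) s = e x at hx
    change act (e y) s = e y
    rw [← ht, ← a5, a2, a5, hx]
  · intro h
    have : ∀ (D : {D : Set V // Good D}) x, ∃ m ∈ D.1, m ≤ x ∧ ∀ y ∈ D.1, y ≤ x → y ≤ m :=
      fun D => D.2.2
    choose f f1 f2 f3 using this
    refine ⟨{D : Set V // Good D}, V, fun D E => ⟨D.1 ∩ E.1, D.2.inter E.2⟩,
      ⟨Set.univ, by simp, fun x => ⟨x, by simp⟩⟩, fun x D => f D x, Equiv.refl _,
      ⟨by simp, by simp [Set.inter_comm], by simp [Set.inter_assoc], by simp, fun c D E =>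
        le_antisymm (f3 _ _ _ (f1 ⟨_, D.2.inter E.2⟩ c).2 (f3 _ _ _ (f1 ⟨_, D.2.inter E.2⟩ c).1
          (f2 _ _))) (f3 _ _ _
          ⟨D.2.1 _ (f1 D c) _ (f2 _ _), f1 _ _⟩ ((f2 _ _).trans (f2 _ _))),
        fun c => le_antisymm (f2 _ _) (f3 _ _ _ trivial le_rfl)⟩, fun a b => ⟨fun l => ?_, ?_⟩⟩
    · obtain ⟨D, d1, d2, d3⟩ := h a b l
      exact ⟨⟨D, d1⟩, le_antisymm (d3 _ (f1 ⟨D, d1⟩ b) (f2 _ _)) (f3 ⟨D, d1⟩ _ _ d2 l)⟩
    · rintro ⟨D, rfl⟩
      exact f2 _ _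

def Rule (D : Set V) (x : V) : Prop :=
  (∃ y ∈ D, x ≤ y) ∨ (∀ z ≤ x, z = x) ∨
    ∃ a ∈ D, ∃ b ∈ D, a ≤ x ∧ b ≤ x ∧ ∀ z, a ≤ z → b ≤ z → z ≤ x → z = x

lemma Rule.mono {D E : Set V} {x : V} (h : Rule D x) (s : D ⊆ E) : Rule E x :=
  h.imp (fun ⟨u, u1, u2⟩ => ⟨u, s u1, u2⟩)
    (Or.imp_right fun ⟨u, u1, v, v1, w⟩ => ⟨u, s u1, v, s v1, w⟩)

lemma good_iff [Finite V] {D : Set V} : Good D ↔ ∀ x, Rule D x → x ∈ D := by
  constructor
  · rintro ⟨h, g⟩ x r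
    obtain ⟨m, m1, m2, m3⟩ := g x
    rcases r with ⟨y, a, b⟩ | a | ⟨a, ha, b, hb, c, d, e⟩
    exacts [h y a x b, a m m2 ▸ m1, e m (m3 a ha c) (m3 b hb d) m2 ▸ m1]
  · refine fun h => ⟨fun x hx y e => h y (Or.inl ⟨x, hx, e⟩), fun x => ?_⟩
    obtain ⟨z, z1, z2⟩ := Finite.exists_le_minimal (p := fun _ : V => True) (a := x) trivial
    obtain ⟨m, -, ⟨m1, m2⟩, m3⟩ := Finite.exists_le_maximal (p := fun y => y ∈ D ∧ y ≤ x)
      ⟨h z (Or.inr (Or.inl fun w e => e.antisymm (z2.2 trivial e))), z1⟩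
    refine ⟨m, m1, m2, fun y hy l => ?_⟩
    obtain ⟨u, u1, ⟨u2, u3⟩, u4⟩ := Finite.exists_le_minimal (p := fun u => m ≤ u ∧ y ≤ u) ⟨m2, l⟩
    exact u3.trans (m3 ⟨h u (Or.inr (Or.inr ⟨m, m1, y, hy, u2, u3, fun w a b e =>
      e.antisymm (u4 ⟨a, b⟩ e)⟩)), u1⟩ u2)

end

def rule (M : List (List Bool)) (D : List ℕ) (x : ℕ) : Prop :=
  x ∈ D ∨ (∃ y < M.length, y ∈ D ∧ ent M x y = true) ∨ (¬ ∃ z < M.length, ent M z x = true ∧ z ≠ x) ∨
    ∃ a < M.length, a ∈ D ∧ ∃ b < M.length, b ∈ D ∧ ent M a x = true ∧ ent M b x = true ∧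
      ¬ ∃ z < M.length, ent M a z = true ∧ ent M b z = true ∧ ent M z x = true ∧ z ≠ x

instance (M : List (List Bool)) (D : List ℕ) (x : ℕ) : Decidable (rule M D x) := by
  unfold rule; infer_instance

def cl (M : List (List Bool)) (c : ℕ) : List ℕ :=
  clo M.length (fun D x => decide (rule M D x)) [c]

def test (M : List (List Bool)) : Prop :=
  ((¬ ∃ r ∈ M, r.length ≠ M.length) ∧ (¬ ∃ a < M.length, ¬ ent M a a = true) ∧
    (¬ ∃ a < M.length, ∃ b < M.length, ent M a b = true ∧ ent M b a = true ∧ a ≠ b) ∧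
    ¬ ∃ a < M.length, ∃ b < M.length, ∃ c < M.length,
      ent M a b = true ∧ ent M b c = true ∧ ¬ ent M a c = true) ∧
  ¬ ∃ c < M.length, ∃ y ∈ cl M c, ∃ d < M.length,
    ent M c d = true ∧ ent M y d = true ∧ ¬ ent M y c = true

lemma pp_test : PP test := by
  have : PT fun p : List (List Bool) × ℕ => cl p.1 p.2 :=
    PT.clo (by fun_prop) (PP.decide (by unfold rule; fun_prop)) (by fun_prop)
  unfold test; fun_prop

lemma rec_iff (M : List (List Bool)) : Rec M ↔ test M := by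
  refine (and_congr_right fun h => ?_).trans (and_congr_left' ?_)
  swap
  · simp only [IsPoset, relOf, Entry, ent, Fin.forall_iff, Fin.ext_iff]
    push Not
    rfl
  let : PartialOrder (Fin M.length) :=
    { le := relOf M, lt := fun a b => relOf M a b ∧ ¬ relOf M b a, le_refl := h.2.1,
      le_trans := h.2.2.2, le_antisymm := h.2.2.1, lt_iff_le_not_ge := fun _ _ => Iff.rfl }
  have r : ∀ (D : List ℕ) (x : Fin M.length), rule M D x ↔ x.1 ∈ D ∨
      @Rule _ this {v : Fin M.length | v.1 ∈ D} x := fun D x => by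
    change _ ↔ _ ∨ (∃ y ∈ _, relOf M x y) ∨ (∀ z, relOf M z x → z = x) ∨ ∃ a ∈ _, ∃ b ∈ _,
      relOf M a x ∧ relOf M b x ∧ ∀ z, relOf M a z → relOf M b z → relOf M z x → z = x
    simp only [rule, relOf, Entry, ent, Fin.forall_iff, Fin.exists_iff, Fin.ext_iff, Set.mem_ofPred_eq,
      exists_prop, not_exists, not_and, not_not, ne_eq]
  have i : ∀ D x, x ∈ D → decide (rule M D x) = true := fun D x hx => decide_eq_true (Or.inl hx)
  refine (@down_iff _ this).trans ⟨?_, fun g c d l => ⟨{v | v.1 ∈ cl M c}, (@good_iff _ this _ _).2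
    fun x hx => clo_fix i _ x.2 (decide_eq_true ((r _ x).2 (Or.inr hx))),
    sub_clo i _ (by simp) c.2, fun y hy e => ?_⟩⟩
  · rintro g ⟨c, hc, y, hy, d, hd, a1, a2, a3⟩
    obtain ⟨D, d1, d2, d3⟩ := g ⟨c, hc⟩ ⟨d, hd⟩ a1
    obtain ⟨b, e⟩ := clo_ind [c] (P := fun y => ∃ b : y < M.length, ⟨y, b⟩ ∈ D) (by simpa using ⟨hc, d2⟩)
      (fun E hE x hx e => ((r E ⟨x, hx⟩).1 (of_decide_eq_true e)).elim (hE x) fun e =>
        ⟨hx, (@good_iff _ this _ _).1 d1 _ (@Rule.mono _ this _ _ _ e fun u u1 => (hE _ u1).2)⟩) y hy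
    exact a3 (d3 _ e a2)
  · by_contra k
    exact g ⟨c, c.2, y, hy, d, d.2, l, e, k⟩

theorem result : InP (Lang Rec) := by
  classical
  exact inP_Lang (f := fun M => decide (test M)) pp_test.decide fun M => by simp [rec_iff]

end Pool.Agent.Results.MP_dd7d0c_lc.InP
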